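import Pool.Agent.Helper17.QD.Glue
import Pool.Agent.Helper68.QC.Cal

/-!
# Project QD, glue, module NRM: normalisation and reflection of the conjugating map
-/

set_option autoImplicit false

open Filter Topology Matrix Set Metric MeasureTheory
open scoped ComplexConjugate ComplexOrder ENNReal

namespace Pool.Agent.Helper97.QL

open Pool.Agent.Helper17.QD Pool.Agent.Helper35.PM
open Pool.Agent.Helper68.QC (nq Bel InvB Intw)
open Pool.Agent.Helper20.QD (Fuch cj IsSU D DD SS dz dzb mob den)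

private noncomputable def rf (z : ℂ) : ℂ := 1 / conj z

private lemma rf_rf (z : ℂ) : rf (rf z) = z := by simp [rf]

private lemma norm_rf (z : ℂ) : ‖rf z‖ = 1 / ‖z‖ := by simp [rf]

private lemma rf_mul (c z : ℂ) (hc : ‖c‖ = 1) : rf (c * z) = c * rf z := by
  have h1 : conj c * c = 1 := by
    rw [Complex.conj_mul', hc]
    simp
  have h2 : c = (conj c)⁻¹ := eq_inv_of_mul_eq_one_right h1
  have h3 : rf (c * z) = (conj c)⁻¹ * (1 / conj z) := by
    rw [rf, map_mul, one_div, mul_inv, one_div]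
  rw [h3, ← h2]
  rfl

private lemma refl_mob {A : SL} (hA : IsSU A) {u : ℂ} (hu0 : u ≠ 0) (hd : den A u ≠ 0) :
    (den A (rf u) = 0 ↔ mob A u = 0) ∧ (mob A u ≠ 0 → mob A (rf u) = rf (mob A u)) := by
  have hcu : conj u ≠ 0 := (map_ne_zero (starRingEnd ℂ)).2 hu0
  have e1 : den A (rf u) = conj ((A : Mat) 0 0 * u + (A : Mat) 0 1) / conj u := by
    rw [den, hA.1, hA.2, rf, map_add, map_mul]
    field_simp
    ring
  have e2 : (A : Mat) 0 0 * rf u + (A : Mat) 0 1 = conj (den A u) / conj u := by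
    rw [den, hA.1, hA.2, rf, map_add, map_mul, Complex.conj_conj, Complex.conj_conj]
    field_simp
    ring
  have e3 : mob A u = ((A : Mat) 0 0 * u + (A : Mat) 0 1) / den A u := rfl
  have e4 : mob A (rf u) = ((A : Mat) 0 0 * rf u + (A : Mat) 0 1) / den A (rf u) := rfl
  constructor
  · rw [e1, e3, div_eq_zero_iff, div_eq_zero_iff, map_eq_zero]
    constructor
    · rintro (h | h)
      · exact Or.inl h
      · exact absurd h hcu
    · rintro (h | h)
      · exact Or.inl h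
      · exact absurd h hd
  · intro _
    rw [e4, e2, e1, rf, e3, map_div₀, one_div_div, div_div_div_cancel_right₀ hcu]

private lemma inter (hSUB : Pool.Agent.Helper20.QD.StSUB) {Γ : Type} [Group Γ] {σ s1 : Γ →* SL}
    {E W : ℂ → ℂ} {N : SL} (hσ : Fuch σ) (hs1 : Fuch s1) (hN : IsSU N)
    (hEm : MapsTo E DD DD) (hC : Cnj σ s1 E) (hWi : Function.Injective W) (hW0 : W 0 = 0)
    (hin : ∀ z ∈ DD, W z = mob N (E z)) (hout : ∀ z, 1 < ‖z‖ → W z = rf (W (rf z)))
    (γ : Γ) (z : ℂ) : (den (σ γ) z = 0 ↔ den (cj N s1 γ) (W z) = 0) ∧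
      (den (σ γ) z ≠ 0 → W (mob (σ γ) z) = mob (cj N s1 γ) (W z)) := by
  obtain ⟨S1, S2, S3, S4, S5, S6⟩ := hSUB
  have hA := hσ.su γ
  have hA' := hs1.su γ
  have hB : IsSU (cj N s1 γ) := S2 _ _ (S2 _ _ hN hA') (S1 N hN).1
  have hDDm : ∀ B : SL, IsSU B → ∀ z ∈ DD, mob B z ∈ DD := by
    intro B hB z hz
    rw [mem_closedBall_zero_iff] at hz
    rcases hz.lt_or_eq with h | h
    · exact ball_subset_closedBall ((S1 B hB).2.2.1.mapsTo (mem_ball_zero_iff.2 h))
    · exact sphere_subset_closedBall ((S1 B hB).2.2.2.1.mapsTo (mem_sphere_zero_iff_norm.2 h))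
  have hWDD : ∀ z ∈ DD, W z ∈ DD := fun z hz => by
    rw [hin z hz]; exact hDDm N hN _ (hEm hz)
  have inside : ∀ z ∈ DD, W (mob (σ γ) z) = mob (cj N s1 γ) (W z) := by
    intro z hz
    have hmz := hDDm _ hA z hz
    rw [hin _ hmz, hC γ z hz, hin z hz]
    have hEz := hEm hz
    have hNE := hDDm N hN _ hEz
    have hinv : mob N⁻¹ (mob N (E z)) = E z := (S1 N hN).2.2.2.2 _ hEz
    have hd1 : den N⁻¹ (mob N (E z)) ≠ 0 := (S1 _ (S1 N hN).1).2.1 _ hNE
    have hd2 : den (s1 γ) (E z) ≠ 0 := (S1 _ hA').2.1 _ hEz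
    have e : cj N s1 γ = (N * s1 γ) * N⁻¹ := rfl
    rw [e, (S4 _ _ _ hd1).1, hinv, (S4 _ _ _ hd2).1]
  rcases le_or_gt ‖z‖ 1 with hz | hz
  · have hzD : z ∈ DD := mem_closedBall_zero_iff.2 hz
    refine ⟨?_, fun _ => inside z hzD⟩
    exact iff_of_false ((S1 _ hA).2.1 z hzD) ((S1 _ hB).2.1 _ (hWDD z hzD))
  · have hz0 : z ≠ 0 := by
      rintro rfl
      rw [norm_zero] at hz
      linarith
    obtain ⟨u, hu⟩ : ∃ u, u = rf z := ⟨_, rfl⟩
    have hzu : z = rf u := by rw [hu, rf_rf]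
    have hu1 : ‖u‖ < 1 := by
      rw [hu, norm_rf, div_lt_one (by linarith)]
      exact hz
    have hu0 : u ≠ 0 := by
      rintro rfl
      apply hz0
      rw [hzu]; simp [rf]
    have huDD : u ∈ DD := mem_closedBall_zero_iff.2 hu1.le
    have hWz : W z = rf (W u) := by rw [hout z hz, ← hu]
    have hWu0 : W u ≠ 0 := by
      rw [← hW0]
      exact fun h => hu0 (hWi h)
    have hdA : den (σ γ) u ≠ 0 := (S1 _ hA).2.1 u huDD
    have hdB : den (cj N s1 γ) (W u) ≠ 0 := (S1 _ hB).2.1 _ (hWDD u huDD)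
    obtain ⟨a1, a2⟩ := refl_mob hA hu0 hdA
    obtain ⟨b1, b2⟩ := refl_mob hB hWu0 hdB
    have hi := inside u huDD
    have hzero : mob (σ γ) u = 0 ↔ mob (cj N s1 γ) (W u) = 0 := by
      rw [← hi]
      constructor
      · intro h; rw [h, hW0]
      · intro h; exact hWi (h.trans hW0.symm)
    rw [hWz]
    have hzu' := hzu
    refine ⟨?_, ?_⟩
    · rw [hzu, a1, hzero, ← b1]
    · intro hd
      rw [hzu] at hd
      have hm0 : mob (σ γ) u ≠ 0 := fun h => hd (a1.2 h)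
      have hm0' : mob (cj N s1 γ) (W u) ≠ 0 := fun h => hm0 (hzero.2 h)
      rw [hzu, a2 hm0, b2 hm0']
      have hmD : ‖mob (σ γ) u‖ < 1 :=
        mem_ball_zero_iff.1 ((S1 _ hA).2.2.1.mapsTo (mem_ball_zero_iff.2 hu1))
      have hbig : 1 < ‖rf (mob (σ γ) u)‖ := by
        rw [norm_rf, lt_div_iff₀ (norm_pos_iff.2 hm0)]
        linarith
      rw [hout _ hbig, rf_rf, hi]

theorem hNRM (hSUB : Pool.Agent.Helper20.QD.StSUB) (hTMI : StTMI)
    (hRFL : Pool.Agent.Helper68.QC.StRFL) (hWSL : Pool.Agent.Helper68.QC.StWSL)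
    (hINB : Pool.Agent.Helper68.QC.StINB) : StNRM := by
  intro Γ _ σ s1 k0 E hk0 hk1 hσ hs1 hE hC
  have hSUB' := hSUB
  obtain ⟨S1, S2, S3, S4, S5, S6⟩ := hSUB
  have h0D : (0 : ℂ) ∈ D := mem_ball_self one_pos
  have hEm : MapsTo E DD DD := by
    intro z hz
    rw [mem_closedBall_zero_iff] at hz
    rcases hz.lt_or_eq with h | h
    · exact ball_subset_closedBall (hE.bij.mapsTo (mem_ball_zero_iff.2 h))
    · exact sphere_subset_closedBall (hE.bijS.mapsTo (mem_sphere_zero_iff_norm.2 h))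
  obtain ⟨M0, hM0, hM0a⟩ := S3 (E 0) (hE.bij.mapsTo h0D)
  obtain ⟨M, hMdef⟩ : ∃ M, M = M0⁻¹ := ⟨_, rfl⟩
  have hM : IsSU M := by rw [hMdef]; exact (S1 M0 hM0).1
  have hMa : mob M (E 0) = 0 := by
    rw [hMdef, ← hM0a]
    exact (S1 M0 hM0).2.2.2.2 0 (ball_subset_closedBall h0D)
  have hMdiff : ∀ z ∈ DD, DifferentiableAt ℂ (mob M) z := fun z hz =>
    (S5 M z ((S1 M hM).2.1 z hz)).differentiableAt
  -- the normalised map
  obtain ⟨E1, hE1⟩ : ∃ E1 : ℂ → ℂ, E1 = fun z => mob M (E z) := ⟨_, rfl⟩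
  have c1 : ContinuousOn E1 (closedBall 0 1) := by
    rw [hE1]
    exact ContinuousOn.comp (t := DD)
      (fun z hz => (hMdiff z hz).continuousAt.continuousWithinAt) hE.cont hEm
  have c2 : BijOn E1 (ball 0 1) (ball 0 1) := by
    rw [hE1]; exact (S1 M hM).2.2.1.comp hE.bij
  have c3 : BijOn E1 (sphere 0 1) (sphere 0 1) := by
    rw [hE1]; exact (S1 M hM).2.2.2.1.comp hE.bijS
  have c4 : E1 0 = 0 := by rw [hE1]; exact hMa
  have hMc : ContDiffOn ℝ 1 (mob M) D := by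
    have h1 : DifferentiableOn ℂ (mob M) D := fun z hz =>
      (hMdiff z (ball_subset_closedBall hz)).differentiableWithinAt
    exact (h1.contDiffOn isOpen_ball).restrict_scalars ℝ
  have c5 : ContDiffOn ℝ 1 E1 (ball 0 1) := by
    rw [hE1]; exact hMc.comp hE.c1 hE.bij.mapsTo
  have c6 : ∀ z ∈ ball (0 : ℂ) 1, Pool.Agent.Helper68.QC.dz E1 z ≠ 0 ∧
      ‖Pool.Agent.Helper68.QC.dzb E1 z‖ ≤ k0 * ‖Pool.Agent.Helper68.QC.dz E1 z‖ := by
    intro z hz
    have hEz : DifferentiableAt ℝ E z :=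
      (hE.c1.differentiableOn (by simp)).differentiableAt (isOpen_ball.mem_nhds hz)
    have hEzD : E z ∈ DD := ball_subset_closedBall (hE.bij.mapsTo hz)
    have hMz := hMdiff (E z) hEzD
    have hMz' : DifferentiableAt ℝ (mob M) (E z) := hMz.restrictScalars ℝ
    have hder : deriv (mob M) (E z) ≠ 0 := by
      rw [(S5 M (E z) ((S1 M hM).2.1 _ hEzD)).deriv]
      exact inv_ne_zero (pow_ne_zero 2 ((S1 M hM).2.1 _ hEzD))
    have e1 := Pool.Agent.Helper68.QC.dz_comp hMz' hEz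
    have e2 := Pool.Agent.Helper68.QC.dzb_comp hMz' hEz
    rw [Pool.Agent.Helper68.QC.dz_holo hMz, Pool.Agent.Helper68.QC.dzb_holo hMz, zero_mul,
      add_zero] at e1 e2
    obtain ⟨d1, d2⟩ := hE.dil z hz
    have d1' : Pool.Agent.Helper68.QC.dz E z ≠ 0 := d1
    have d2' : ‖Pool.Agent.Helper68.QC.dzb E z‖ ≤ k0 * ‖Pool.Agent.Helper68.QC.dz E z‖ := d2
    rw [hE1, e1, e2]
    refine ⟨mul_ne_zero hder d1', ?_⟩
    rw [norm_mul, norm_mul]
    nlinarith [mul_le_mul_of_nonneg_left d2' (norm_nonneg (deriv (mob M) (E z)))]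
  obtain ⟨V, hV1, hV2, hVh, hVc, hVm, hVd⟩ := hRFL k0 E1 c1 c2 c3 c4 c5 c6
  obtain ⟨hbel, -, hVnq⟩ := hWSL k0 V hk0 hk1 hVh hVc hVd
  obtain ⟨κ, hκ⟩ : ∃ κ, κ = Pool.Agent.Helper68.QC.mu0 V := ⟨_, rfl⟩
  rw [← hκ] at hbel hVnq
  have hV0 : V 0 = 0 := by rw [hV1 0 (mem_closedBall_self zero_le_one), c4]
  have hV1n : ‖V 1‖ = 1 := by
    have h1 : (1 : ℂ) ∈ sphere (0 : ℂ) 1 := by simp
    rw [hV1 1 (sphere_subset_closedBall h1)]
    exact mem_sphere_zero_iff_norm.1 (c3.mapsTo h1)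
  have hVnq' : ∀ z, V z = V 1 * nq κ z := by
    intro z
    have := hVnq z
    rw [hV0, zero_add, sub_zero] at this
    exact this
  obtain ⟨e, he⟩ : ∃ e : ℂ, e ^ 2 = conj (V 1) := by
    obtain ⟨e, he⟩ := IsAlgClosed.exists_pow_nat_eq (conj (V 1)) (n := 2) (by norm_num)
    exact ⟨e, he⟩
  have hen : ‖e‖ = 1 := by
    have h1 : ‖e‖ ^ 2 = 1 := by rw [← norm_pow, he, RCLike.norm_conj, hV1n]
    have h2 := norm_nonneg e
    nlinarith [sq_nonneg (‖e‖ - 1)]
  have hee : e * conj e = 1 := by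
    rw [Complex.mul_conj', hen]; simp
  have hce : conj e ≠ 0 := right_ne_zero_of_mul_eq_one hee
  have hnqV : ∀ z, nq κ z = e ^ 2 * V z := by
    intro z
    rw [hVnq' z, he, ← mul_assoc, Complex.conj_mul', hV1n]
    simp
  obtain ⟨R, hR⟩ : ∃ R : SL, (R : Mat) = !![e, 0; 0, conj e] :=
    ⟨⟨!![e, 0; 0, conj e], by rw [Matrix.det_fin_two_of]; rw [hee]; ring⟩, rfl⟩
  have hRSU : IsSU R := by
    refine ⟨?_, ?_⟩
    · rw [hR]; simp
    · rw [hR]; simp
  have hmR : ∀ y, mob R y = e ^ 2 * y := by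
    intro y
    rw [mob, hR]
    simp only [Matrix.of_apply, Matrix.cons_val', Matrix.cons_val_zero, Matrix.cons_val_one,
      Matrix.cons_val_fin_one, add_zero, zero_mul, zero_add]
    rw [div_eq_iff hce]
    linear_combination (-(e * y)) * hee
  have hdR : ∀ y, den R y ≠ 0 := by
    intro y
    rw [den, hR]
    simpa using hce
  have hN : IsSU (R * M) := S2 _ _ hRSU hM
  have hVin : ∀ z ∈ DD, V z = mob M (E z) := fun z hz => by rw [hV1 z hz, hE1]
  have hVout : ∀ z, 1 < ‖z‖ → V z = rf (V (rf z)) := by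
    intro z hz
    have h1 : rf z ∈ closedBall (0 : ℂ) 1 := by
      rw [mem_closedBall_zero_iff, norm_rf, div_le_one (by linarith)]
      exact hz.le
    rw [hV1 _ h1, hV2 z hz]
    rfl
  have hWin : ∀ z ∈ DD, nq κ z = mob (R * M) (E z) := by
    intro z hz
    rw [(S4 R M (E z) ((S1 M hM).2.1 _ (hEm hz))).1, hmR, hnqV, hVin z hz]
  have he2 : ‖e ^ 2‖ = 1 := by rw [norm_pow, hen, one_pow]
  have hWout : ∀ z, 1 < ‖z‖ → nq κ z = rf (nq κ (rf z)) := by
    intro z hz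
    rw [hnqV, hnqV, rf_mul _ _ he2, ← hVout z hz]
  have hW0 : nq κ 0 = 0 := by rw [hnqV, hV0, mul_zero]
  have hI1 := inter hSUB' hσ hs1 hM hEm hC hVh.injective hV0 hVin hVout
  have hI2 := inter hSUB' hσ hs1 hN hEm hC (nq κ).injective hW0 hWin hWout
  have hnorm : ∀ z, ‖nq κ z‖ = ‖V z‖ := fun z => by rw [hnqV, norm_mul, he2, one_mul]
  -- norms of `V`
  have hn1 : ∀ z : ℂ, ‖z‖ < 1 → ‖V z‖ < 1 := by
    intro z hz
    rw [hV1 z (mem_closedBall_zero_iff.2 hz.le)]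
    exact mem_ball_zero_iff.1 (c2.mapsTo (mem_ball_zero_iff.2 hz))
  have hn2 : ∀ z : ℂ, ‖z‖ = 1 → ‖V z‖ = 1 := by
    intro z hz
    rw [hV1 z (mem_closedBall_zero_iff.2 hz.le)]
    exact mem_sphere_zero_iff_norm.1 (c3.mapsTo (mem_sphere_zero_iff_norm.2 hz))
  have hn3 : ∀ z : ℂ, 1 < ‖z‖ → 1 < ‖V z‖ := by
    intro z hz
    have hz0 : z ≠ 0 := by
      rintro rfl
      rw [norm_zero] at hz
      linarith
    have h1 : ‖rf z‖ < 1 := by
      rw [norm_rf, div_lt_one (by linarith)]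
      exact hz
    have h2 := hn1 _ h1
    have h3 : V (rf z) ≠ 0 := by
      rw [← hV0]
      intro h
      have := hVh.injective h
      apply hz0
      rw [← rf_rf z, this]
      simp [rf]
    rw [hVout z hz, norm_rf, lt_div_iff₀ (norm_pos_iff.2 h3)]
    linarith
  refine ⟨R * M, κ, hN, hbel, ?_, ?_, ?_, ?_⟩
  · intro γ
    rw [hκ]
    have hA := hσ.su γ
    refine hINB V (σ γ) (cj M s1 γ) hVc (fun z hz => (hVd z hz).1) ?_ ?_
    · intro z hz hd
      have hz' : ‖z‖ ≠ 1 := hz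
      change ‖mob (σ γ) z‖ ≠ 1
      rcases lt_or_gt_of_ne hz' with h | h
      · exact (mem_ball_zero_iff.1 ((S1 _ hA).2.2.1.mapsTo (mem_ball_zero_iff.2 h))).ne
      · have hz0 : z ≠ 0 := by
          rintro rfl
          rw [norm_zero] at h
          linarith
        have h1 : ‖rf z‖ < 1 := by
          rw [norm_rf, div_lt_one (by linarith)]
          exact h
        have h2 : rf z ≠ 0 := by
          intro h'
          apply hz0
          rw [← rf_rf z, h']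
          simp [rf]
        obtain ⟨a1, a2⟩ := refl_mob hA h2
          ((S1 _ hA).2.1 _ (mem_closedBall_zero_iff.2 h1.le))
        rw [rf_rf] at a1 a2
        have h3 : mob (σ γ) (rf z) ≠ 0 := fun h' => hd (a1.2 h')
        rw [a2 h3, norm_rf]
        have h4 : ‖mob (σ γ) (rf z)‖ < 1 :=
          mem_ball_zero_iff.1 ((S1 _ hA).2.2.1.mapsTo (mem_ball_zero_iff.2 h1))
        have h5 := norm_pos_iff.2 h3
        refine ne_of_gt ?_
        rw [lt_div_iff₀ h5]
        linarith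
    · intro z hd
      obtain ⟨i1, i2⟩ := hI1 γ z
      exact ⟨fun h => hd (i1.2 h), i2 hd⟩
  · exact hTMI Γ σ (cj (R * M) s1) (nq κ) (nq κ).isHomeomorph fun γ z => hI2 γ z
  · intro z
    rw [hnorm]
    constructor
    · intro h
      by_contra h'
      rcases (not_lt.1 h').lt_or_eq with h1 | h1
      · exact absurd (hn3 z h1) (by linarith)
      · exact absurd (hn2 z h1.symm) (by linarith)
    · exact hn1 z
  · intro z
    rw [hnorm]
    constructor
    · intro h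
      rcases lt_trichotomy ‖z‖ 1 with h1 | h1 | h1
      · exact absurd (hn1 z h1) (by linarith)
      · exact h1
      · exact absurd (hn3 z h1) (by linarith)
    · exact hn2 z

end Pool.Agent.Helper97.QL
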